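import Mathlib

/-!
# A graphical group scheme whose class counting zeta functions have abscissa of convergence 25/2

The graph is the complete graph on four vertices with a leaf attached to every vertex.
-/

set_option autoImplicit false

namespace Pool.Agent.Results.MP_2f42a7_al.NotIntegral

/-- The edges `{u, v}` of a graph, `u < v`. -/
abbrev Edge {V : Type*} [LinearOrder V] (Γ : SimpleGraph V) : Type _ :=
  {e : V × V // e.1 < e.2 ∧ Γ.Adj e.1 e.2}

/-- The points `R^V × R^E` of the graphical group scheme of the graph `Γ`. -/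
@[ext]
structure GG {V : Type*} [LinearOrder V] (Γ : SimpleGraph V) (R : Type*) where
  x : V → R
  z : Edge Γ → R

section group

variable {V : Type*} [LinearOrder V] {Γ : SimpleGraph V} {R : Type*} [CommRing R]

/-- The multiplication `(x, z) (x', z') = (x + x', z + z' + β(x, x'))`, where
`β(x, x')_e = x_u x'_v` for the edge `e = {u, v}`, `u < v`. -/
instance : Mul (GG Γ R) where
  mul a b := ⟨fun v => a.x v + b.x v, fun e => a.z e + b.z e + a.x e.1.1 * b.x e.1.2⟩

instance : One (GG Γ R) where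
  one := ⟨fun _ => 0, fun _ => 0⟩

instance : Inv (GG Γ R) where
  inv a := ⟨fun v => - a.x v, fun e => - a.z e + a.x e.1.1 * a.x e.1.2⟩

@[simp] theorem mul_x (a b : GG Γ R) (v : V) : (a * b).x v = a.x v + b.x v := rfl

@[simp] theorem mul_z (a b : GG Γ R) (e : Edge Γ) :
    (a * b).z e = a.z e + b.z e + a.x e.1.1 * b.x e.1.2 := rfl

@[simp] theorem one_x (v : V) : (1 : GG Γ R).x v = 0 := rfl

@[simp] theorem one_z (e : Edge Γ) : (1 : GG Γ R).z e = 0 := rfl

@[simp] theorem inv_x (a : GG Γ R) (v : V) : (a⁻¹).x v = - a.x v := rfl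

@[simp] theorem inv_z (a : GG Γ R) (e : Edge Γ) :
    (a⁻¹).z e = - a.z e + a.x e.1.1 * a.x e.1.2 := rfl

instance : Group (GG Γ R) where
  mul_assoc a b c := by
    ext v
    · simp only [mul_x]; ring
    · simp only [mul_z, mul_x]; ring
  one_mul a := by
    ext v
    · simp
    · simp
  mul_one a := by
    ext v
    · simp
    · simp
  inv_mul_cancel a := by
    ext v
    · simp
    · simp only [mul_z, inv_z, inv_x, one_z]; ring

theorem commute_iff (a b : GG Γ R) :
    Commute a b ↔ ∀ e : Edge Γ, a.x e.1.1 * b.x e.1.2 = b.x e.1.1 * a.x e.1.2 := by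
  constructor
  · intro h e
    have := congrArg (fun c : GG Γ R => c.z e) h.eq
    simp only [mul_z] at this
    linear_combination this
  · intro h
    show a * b = b * a
    ext v
    · simp only [mul_x]; ring
    · simp only [mul_z]; linear_combination h v

/-- Pairs of commuting elements, up to the coordinates in `R^E`. -/
abbrev Par (Γ : SimpleGraph V) (R : Type*) [CommRing R] : Type _ :=
  {q : (V → R) × (V → R) // ∀ e : Edge Γ, q.1 e.1.1 * q.2 e.1.2 = q.2 e.1.1 * q.1 e.1.2}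

def equivGG : GG Γ R ≃ (V → R) × (Edge Γ → R) where
  toFun a := (a.x, a.z)
  invFun a := ⟨a.1, a.2⟩
  left_inv _ := rfl
  right_inv _ := rfl

def equivComm : {p : GG Γ R × GG Γ R // Commute p.1 p.2} ≃
    Par Γ R × ((Edge Γ → R) × (Edge Γ → R)) where
  toFun p := (⟨(p.1.1.x, p.1.2.x), (commute_iff _ _).1 p.2⟩, (p.1.1.z, p.1.2.z))
  invFun q := ⟨(⟨q.1.1.1, q.2.1⟩, ⟨q.1.1.2, q.2.2⟩), (commute_iff _ _).2 q.1.2⟩
  left_inv _ := rfl
  right_inv _ := rfl

variable [Finite V] [Finite R]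

instance : Finite (GG Γ R) := Finite.of_equiv _ equivGG.symm

theorem card_conj_mul (h : Nat.card (Edge Γ) = Nat.card V + 2) :
    Nat.card (ConjClasses (GG Γ R)) = Nat.card R ^ 2 * Nat.card (Par Γ R) := by
  have h1 := card_comm_eq_card_conjClasses_mul_card (GG Γ R)
  rw [Nat.card_congr equivComm, Nat.card_congr (equivGG (Γ := Γ) (R := R)), Nat.card_prod,
    Nat.card_prod, Nat.card_prod, Nat.card_fun, Nat.card_fun, h] at h1
  have hR : 0 < Nat.card R := Nat.card_pos
  have h2 : (Nat.card R ^ Nat.card V * Nat.card R ^ (Nat.card V + 2)) *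
      Nat.card (ConjClasses (GG Γ R)) =
      (Nat.card R ^ Nat.card V * Nat.card R ^ (Nat.card V + 2)) *
      (Nat.card R ^ 2 * Nat.card (Par Γ R)) := by
    rw [mul_comm, ← h1]
    ring
  exact Nat.eq_of_mul_eq_mul_left (by positivity) h2

end group

/-- The complete graph on the vertices `0, 1, 2, 3` with the leaves `4, 5, 6, 7` attached to
`0, 1, 2, 3`. -/
def Γ₀ : SimpleGraph (Fin 8) :=
  SimpleGraph.fromRel fun u v => (u.1 < 4 ∧ v.1 < 4) ∨ v.1 = u.1 + 4

instance : DecidableRel Γ₀.Adj := fun u v => by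
  unfold Γ₀; infer_instance

theorem card_edge : Nat.card (Edge Γ₀) = Nat.card (Fin 8) + 2 := by
  rw [Nat.card_eq_fintype_card, Nat.card_eq_fintype_card]
  decide

section local_counting

open Finset

variable (p k : ℕ) [hp : Fact p.Prime]

/-- The determinant of two vectors. -/
def D {R : Type*} [CommRing R] (w u : R × R) : R := w.1 * u.2 - w.2 * u.1

open scoped Classical in
/-- The multiples of `p ^ i` in `ℤ / p ^ k`. -/
noncomputable def M (i : ℕ) : Finset (ZMod (p ^ k)) := univ.filter fun x => ∃ y, x = (p : ZMod (p ^ k)) ^ i * y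

open scoped Classical in
/-- The elements of `ℤ / p ^ k` that are killed by `p ^ j`. -/
noncomputable def Ann (j : ℕ) : Finset (ZMod (p ^ k)) := univ.filter fun x => (p : ZMod (p ^ k)) ^ j * x = 0

variable {p k}

theorem mem_M {i : ℕ} {x : ZMod (p ^ k)} : x ∈ M p k i ↔ ∃ y, x = (p : ZMod (p ^ k)) ^ i * y := by
  simp [M]

theorem mem_Ann {i : ℕ} {x : ZMod (p ^ k)} : x ∈ Ann p k i ↔ (p : ZMod (p ^ k)) ^ i * x = 0 := by
  simp [Ann]

theorem mem_M_iff {i : ℕ} (hi : i ≤ k) {x : ZMod (p ^ k)} : x ∈ M p k i ↔ p ^ i ∣ x.val := by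
  rw [mem_M]
  constructor
  · rintro ⟨y, rfl⟩
    have h1 : ((p : ZMod (p ^ k)) ^ i * y) = ((p ^ i * y.val : ℕ) : ZMod (p ^ k)) := by
      push_cast
      rw [ZMod.natCast_zmod_val]
    rw [h1, ZMod.val_natCast]
    exact (Nat.dvd_mod_iff (pow_dvd_pow p hi)).2 (Dvd.intro _ rfl)
  · rintro ⟨c, hc⟩
    refine ⟨c, ?_⟩
    rw [← ZMod.natCast_zmod_val x, hc]
    push_cast
    rfl

theorem card_M {i : ℕ} (hi : i ≤ k) : (M p k i).card = p ^ (k - i) := by
  have hpos : 0 < p ^ i := pow_pos hp.out.pos i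
  have hk : p ^ i * p ^ (k - i) = p ^ k := by rw [← pow_add, Nat.add_sub_cancel' hi]
  have h1 : M p k i = (range (p ^ (k - i))).image fun t => ((p ^ i * t : ℕ) : ZMod (p ^ k)) := by
    ext x
    rw [mem_M_iff hi, mem_image]
    constructor
    · rintro ⟨c, hc⟩
      refine ⟨c, ?_, ?_⟩
      · rw [mem_range]
        have := ZMod.val_lt x
        rw [hc, ← hk] at this
        exact lt_of_mul_lt_mul_left this hpos.le
      · rw [← hc, ZMod.natCast_zmod_val]
    · rintro ⟨t, -, rfl⟩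
      rw [ZMod.val_natCast]
      exact (Nat.dvd_mod_iff (pow_dvd_pow p hi)).2 (Dvd.intro _ rfl)
  rw [h1, card_image_of_injOn, card_range]
  intro a ha b hb hab
  have ha' : p ^ i * a < p ^ k := by
    rw [← hk]; exact Nat.mul_lt_mul_of_pos_left (mem_range.1 ha) hpos
  have hb' : p ^ i * b < p ^ k := by
    rw [← hk]; exact Nat.mul_lt_mul_of_pos_left (mem_range.1 hb) hpos
  have h2 := congrArg ZMod.val hab
  simp only at h2
  rw [ZMod.val_natCast, ZMod.val_natCast, Nat.mod_eq_of_lt ha', Nat.mod_eq_of_lt hb'] at h2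
  exact Nat.eq_of_mul_eq_mul_left hpos h2

theorem card_Ann_le {j : ℕ} (hj : j ≤ k) : (Ann p k j).card ≤ p ^ j := by
  have h1 : Ann p k j ⊆ M p k (k - j) := by
    intro x hx
    rw [mem_Ann] at hx
    rw [mem_M_iff (Nat.sub_le _ _)]
    have h2 : ((p ^ j * x.val : ℕ) : ZMod (p ^ k)) = 0 := by
      push_cast
      rw [ZMod.natCast_zmod_val, hx]
    rw [ZMod.natCast_eq_zero_iff] at h2
    have hk : p ^ j * p ^ (k - j) = p ^ k := by rw [← pow_add, Nat.add_sub_cancel' hj]
    exact Nat.dvd_of_mul_dvd_mul_left (pow_pos hp.out.pos j) (hk.dvd.trans h2)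
  refine (card_le_card h1).trans (le_of_eq ?_)
  rw [card_M (Nat.sub_le _ _), Nat.sub_sub_self hj]

/-- One of the coordinates is a unit. -/
def Uni {R : Type*} [CommRing R] (w : R × R) : Prop := IsUnit w.1 ∨ IsUnit w.2

open scoped Classical in
variable (p k) in
/-- The vectors `p ^ j w'` where a coordinate of `w'` is a unit. -/
noncomputable def A (j : ℕ) : Finset (ZMod (p ^ k) × ZMod (p ^ k)) :=
  univ.filter fun w => ∃ w', Uni w' ∧ w = (p : ZMod (p ^ k)) ^ j • w'

theorem mem_A {j : ℕ} {w : ZMod (p ^ k) × ZMod (p ^ k)} :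
    w ∈ A p k j ↔ ∃ w', Uni w' ∧ w = (p : ZMod (p ^ k)) ^ j • w' := by
  simp [A]

variable (p k) in
/-- The vectors that are divisible by `p ^ j`. -/
noncomputable def S (j : ℕ) : Finset (ZMod (p ^ k) × ZMod (p ^ k)) := M p k j ×ˢ M p k j

theorem A_subset_S (j : ℕ) : A p k j ⊆ S p k j := by
  intro w hw
  obtain ⟨w', -, rfl⟩ := mem_A.1 hw
  rw [S, mem_product]
  exact ⟨mem_M.2 ⟨w'.1, rfl⟩, mem_M.2 ⟨w'.2, rfl⟩⟩

theorem S_anti {i j : ℕ} (h : i ≤ j) : S p k j ⊆ S p k i := by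
  intro w hw
  rw [S, mem_product, mem_M, mem_M] at hw
  obtain ⟨⟨a, ha⟩, ⟨b, hb⟩⟩ := hw
  rw [S, mem_product, mem_M, mem_M]
  obtain ⟨c, rfl⟩ := Nat.exists_eq_add_of_le h
  exact ⟨⟨_, by rw [ha, pow_add, mul_assoc]⟩, ⟨_, by rw [hb, pow_add, mul_assoc]⟩⟩

theorem exists_mul_of_not_isUnit {x : ZMod (p ^ k)} (hx : ¬ IsUnit x) :
    ∃ y, x = (p : ZMod (p ^ k)) * y := by
  have h1 : ¬ Nat.Coprime x.val (p ^ k) := by
    intro h
    apply hx
    rw [← ZMod.natCast_zmod_val x]
    exact (ZMod.isUnit_iff_coprime _ _).2 h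
  have h2 : p ∣ x.val := by
    by_contra h
    apply h1
    exact Nat.Coprime.pow_right k (((Nat.Prime.coprime_iff_not_dvd hp.out).2 h).symm)
  obtain ⟨c, hc⟩ := h2
  refine ⟨c, ?_⟩
  rw [← ZMod.natCast_zmod_val x, hc]
  push_cast
  rfl

theorem exists_mem_A {j : ℕ} (hj : j ≤ k) {w : ZMod (p ^ k) × ZMod (p ^ k)} (hw : w ∈ S p k j) :
    ∃ i, j ≤ i ∧ i ≤ k ∧ w ∈ A p k i := by
  induction hn : k - j generalizing j with
  | zero =>
    have hjk : j = k := by omega
    subst hjk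
    refine ⟨j, le_rfl, le_rfl, mem_A.2 ⟨(1, 0), Or.inl isUnit_one, ?_⟩⟩
    rw [S, mem_product, mem_M, mem_M] at hw
    obtain ⟨⟨a, ha⟩, ⟨b, hb⟩⟩ := hw
    have h0 : (p : ZMod (p ^ j)) ^ j = 0 := by
      rw [← Nat.cast_pow]; exact ZMod.natCast_self _
    apply Prod.ext
    · rw [ha, h0]; simp
    · rw [hb, h0]; simp
  | succ n ih =>
    rw [S, mem_product, mem_M, mem_M] at hw
    obtain ⟨⟨a, ha⟩, ⟨b, hb⟩⟩ := hw
    by_cases hab : Uni (a, b)
    · refine ⟨j, le_rfl, hj, mem_A.2 ⟨(a, b), hab, ?_⟩⟩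
      apply Prod.ext
      · exact ha
      · exact hb
    · rw [Uni, not_or] at hab
      obtain ⟨a', ha'⟩ := exists_mul_of_not_isUnit hab.1
      obtain ⟨b', hb'⟩ := exists_mul_of_not_isUnit hab.2
      simp only at ha' hb'
      have hw' : w ∈ S p k (j + 1) := by
        rw [S, mem_product, mem_M, mem_M]
        exact ⟨⟨a', by rw [ha, ha', pow_succ, mul_assoc]⟩, ⟨b', by rw [hb, hb', pow_succ, mul_assoc]⟩⟩
      obtain ⟨i, h1, h2, h3⟩ := ih (by omega) hw' (by omega)
      exact ⟨i, by omega, h2, h3⟩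

open scoped Classical in
/-- The vectors in `S i` that are parallel to a given vector in `A j`. -/
theorem card_parallel_le {i j : ℕ} (hi : i ≤ k) (hj : j ≤ k) {w : ZMod (p ^ k) × ZMod (p ^ k)}
    (hw : w ∈ A p k j) :
    ((S p k i).filter fun u => D w u = 0).card ≤ p ^ (k - i) * p ^ (min (k - i) j) := by
  obtain ⟨w', hw', rfl⟩ := mem_A.1 hw
  have hcard : (M p k i ×ˢ (M p k i ∩ Ann p k j)).card ≤ p ^ (k - i) * p ^ (min (k - i) j) := by
    rw [card_product, card_M hi]
    refine Nat.mul_le_mul_left _ ?_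
    rcases le_total (k - i) j with h | h
    · rw [min_eq_left h, ← card_M hi]
      exact card_le_card inter_subset_left
    · rw [min_eq_right h]
      exact (card_le_card inter_subset_right).trans (card_Ann_le hj)
  have hD : ∀ u ∈ (S p k i).filter fun u => D ((p : ZMod (p ^ k)) ^ j • w') u = 0,
      D w' u ∈ M p k i ∩ Ann p k j := by
    intro u hu
    rw [mem_filter, S, mem_product, mem_M, mem_M] at hu
    obtain ⟨⟨⟨a, ha⟩, ⟨b, hb⟩⟩, h0⟩ := hu
    rw [mem_inter, mem_M, mem_Ann]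
    refine ⟨⟨w'.1 * b - w'.2 * a, ?_⟩, ?_⟩
    · rw [D, ha, hb]; ring
    · rw [← h0, D, D]
      simp only [Prod.smul_fst, Prod.smul_snd, smul_eq_mul]
      ring
  refine le_trans ?_ hcard
  rcases hw' with hu | hu
  · refine card_le_card_of_injOn (fun u => (u.1, D w' u)) ?_ ?_
    · intro u hu'
      have h1 := hD u hu'
      rw [mem_coe, mem_filter, S, mem_product] at hu'
      rw [mem_coe, mem_product]
      exact ⟨hu'.1.1, h1⟩
    · intro u _ v _ huv
      simp only [Prod.mk.injEq, D] at huv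
      obtain ⟨h1, h2⟩ := huv
      rw [h1, sub_left_inj] at h2
      exact Prod.ext h1 (hu.mul_left_cancel h2)
  · refine card_le_card_of_injOn (fun u => (u.2, D w' u)) ?_ ?_
    · intro u hu'
      have h1 := hD u hu'
      rw [mem_coe, mem_filter, S, mem_product] at hu'
      rw [mem_coe, mem_product]
      exact ⟨hu'.1.2, h1⟩
    · intro u _ v _ huv
      simp only [Prod.mk.injEq, D] at huv
      obtain ⟨h1, h2⟩ := huv
      rw [h1, sub_right_inj] at h2
      exact Prod.ext (hu.mul_left_cancel h2) h1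

open scoped Classical in
variable (p k) in
/-- The vectors that are parallel to `w`. -/
noncomputable def par (w : ZMod (p ^ k) × ZMod (p ^ k)) : Finset (ZMod (p ^ k) × ZMod (p ^ k)) :=
  univ.filter fun u => D w u = 0

theorem card_par_le {j : ℕ} (hj : j ≤ k) {w : ZMod (p ^ k) × ZMod (p ^ k)} (hw : w ∈ A p k j) :
    (par p k w).card ≤ p ^ (k + j) := by
  classical
  have h1 := card_parallel_le (Nat.zero_le k) hj hw
  rw [Nat.sub_zero, min_eq_right hj, ← pow_add] at h1
  refine le_trans (card_le_card ?_) h1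
  intro u hu
  rw [par, mem_filter] at hu
  rw [mem_filter, S, mem_product, mem_M, mem_M]
  exact ⟨⟨⟨u.1, by simp⟩, ⟨u.2, by simp⟩⟩, hu.2⟩

theorem sum_biUnion_le {α β : Type*} [DecidableEq β] (s : Finset α) (t : α → Finset β)
    (f : β → ℕ) : ∑ b ∈ s.biUnion t, f b ≤ ∑ a ∈ s, ∑ b ∈ t a, f b := by
  classical
  induction s using Finset.induction_on with
  | empty => simp
  | insert a s ha ih =>
    rw [biUnion_insert, sum_insert ha]
    have := sum_union_inter (s₁ := t a) (s₂ := s.biUnion t) (f := f)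
    omega

open scoped Classical in
variable (p k) in
/-- The pairs `(w', u)` such that `w'` is parallel to `w` and divisible by `p ^ j` and `u` is
parallel to `w'`. -/
noncomputable def Q (j : ℕ) (w : ZMod (p ^ k) × ZMod (p ^ k)) :
    Finset ((_ : ZMod (p ^ k) × ZMod (p ^ k)) × (ZMod (p ^ k) × ZMod (p ^ k))) :=
  ((S p k j).filter fun w' => D w w' = 0).sigma fun w' => par p k w'

theorem card_Q_le {j : ℕ} (hj : j ≤ k) {w : ZMod (p ^ k) × ZMod (p ^ k)} (hw : w ∈ A p k j) :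
    (Q p k j w).card ≤ (k + 1) * p ^ (2 * k + min (k - j) j) := by
  classical
  rw [Q, card_sigma]
  calc ∑ w' ∈ (S p k j).filter fun w' => D w w' = 0, (par p k w').card
      ≤ ∑ w' ∈ (Icc j k).biUnion fun i => (A p k i).filter fun w' => D w w' = 0,
          (par p k w').card := by
        refine sum_le_sum_of_subset ?_
        intro w' hw'
        rw [mem_filter] at hw'
        obtain ⟨i, h1, h2, h3⟩ := exists_mem_A hj hw'.1
        rw [mem_biUnion]
        exact ⟨i, mem_Icc.2 ⟨h1, h2⟩, mem_filter.2 ⟨h3, hw'.2⟩⟩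
    _ ≤ ∑ i ∈ Icc j k, ∑ w' ∈ (A p k i).filter fun w' => D w w' = 0, (par p k w').card :=
        sum_biUnion_le _ _ _
    _ ≤ ∑ i ∈ Icc j k, p ^ (2 * k + min (k - j) j) := by
        refine sum_le_sum fun i hi => ?_
        rw [mem_Icc] at hi
        calc ∑ w' ∈ (A p k i).filter fun w' => D w w' = 0, (par p k w').card
            ≤ ∑ w' ∈ (A p k i).filter fun w' => D w w' = 0, p ^ (k + i) :=
              sum_le_sum fun w' hw' => card_par_le hi.2 (mem_filter.1 hw').1
          _ = ((A p k i).filter fun w' => D w w' = 0).card * p ^ (k + i) := by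
              rw [sum_const, smul_eq_mul]
          _ ≤ (p ^ (k - i) * p ^ (min (k - i) j)) * p ^ (k + i) := by
              refine Nat.mul_le_mul_right _ (le_trans (card_le_card ?_)
                (card_parallel_le hi.2 hj hw))
              exact filter_subset_filter _ (A_subset_S i)
          _ = p ^ (2 * k + min (k - i) j) := by
              rw [← pow_add, ← pow_add]
              congr 1
              omega
          _ ≤ p ^ (2 * k + min (k - j) j) := by
              refine Nat.pow_le_pow_right hp.out.pos ?_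
              omega
    _ = (k + 1 - j) * p ^ (2 * k + min (k - j) j) := by
        rw [sum_const, Nat.card_Icc, smul_eq_mul]
    _ ≤ (k + 1) * p ^ (2 * k + min (k - j) j) := Nat.mul_le_mul_right _ (Nat.sub_le _ _)

/-- The vector at a vertex of the complete graph. -/
def core {R : Type*} [CommRing R] (q : Par Γ₀ R) (l : Fin 4) : R × R :=
  (q.1.1 (Fin.castAdd 4 l), q.1.2 (Fin.castAdd 4 l))

/-- The vector at a leaf. -/
def leaf {R : Type*} [CommRing R] (q : Par Γ₀ R) (l : Fin 4) : R × R :=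
  (q.1.1 (Fin.natAdd 4 l), q.1.2 (Fin.natAdd 4 l))

theorem adj_core : ∀ l l' : Fin 4, l < l' → (Fin.castAdd 4 l < Fin.castAdd 4 l' ∧
    Γ₀.Adj (Fin.castAdd 4 l) (Fin.castAdd 4 l')) := by
  decide

theorem adj_leaf : ∀ l : Fin 4, (Fin.castAdd 4 l < Fin.natAdd 4 l ∧
    Γ₀.Adj (Fin.castAdd 4 l) (Fin.natAdd 4 l)) := by
  decide

theorem D_core {R : Type*} [CommRing R] (q : Par Γ₀ R) {l l' : Fin 4} (h : l ≠ l') :
    D (core q l) (core q l') = 0 := by
  rcases lt_or_gt_of_ne h with h | h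
  · have := q.2 ⟨(Fin.castAdd 4 l, Fin.castAdd 4 l'), adj_core _ _ h⟩
    rw [D]
    simp only [core] at *
    linear_combination this
  · have := q.2 ⟨(Fin.castAdd 4 l', Fin.castAdd 4 l), adj_core _ _ h⟩
    rw [D]
    simp only [core] at *
    linear_combination -this

theorem D_leaf {R : Type*} [CommRing R] (q : Par Γ₀ R) (l : Fin 4) :
    D (core q l) (leaf q l) = 0 := by
  have := q.2 ⟨(Fin.castAdd 4 l, Fin.natAdd 4 l), adj_leaf l⟩
  rw [D]
  simp only [core, leaf] at *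
  linear_combination this

theorem Par_ext {R : Type*} [CommRing R] {q q' : Par Γ₀ R} (h : ∀ l, core q l = core q' l)
    (h' : ∀ l, leaf q l = leaf q' l) : q = q' := by
  apply Subtype.ext
  apply Prod.ext
  · funext v
    exact Fin.addCases (m := 4) (n := 4) (motive := fun v => q.1.1 v = q'.1.1 v)
      (fun l => congrArg Prod.fst (h l)) (fun l => congrArg Prod.fst (h' l)) v
  · funext v
    exact Fin.addCases (m := 4) (n := 4) (motive := fun v => q.1.2 v = q'.1.2 v)
      (fun l => congrArg Prod.snd (h l)) (fun l => congrArg Prod.snd (h' l)) v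

theorem card_Par_le : Nat.card (Par Γ₀ (ZMod (p ^ k))) ≤
    ∑ j ∈ range (k + 1), 4 * (p ^ (2 * (k - j)) * (p ^ (k + j) *
      ((k + 1) * p ^ (2 * k + min (k - j) j)) ^ 3)) := by
  classical
  let _ : Fintype (Par Γ₀ (ZMod (p ^ k))) := Fintype.ofFinite _
  rw [Nat.card_eq_fintype_card, ← card_univ]
  let X : ℕ → Fin 4 → Finset (Par Γ₀ (ZMod (p ^ k))) := fun j i =>
    univ.filter fun q => core q i ∈ A p k j ∧ ∀ l, core q l ∈ S p k j
  have hcov : (univ : Finset (Par Γ₀ (ZMod (p ^ k)))) ⊆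
      (range (k + 1)).biUnion fun j => univ.biUnion fun i => X j i := by
    intro q _
    have h1 : ∀ l, ∃ i, i ≤ k ∧ core q l ∈ A p k i := by
      intro l
      have h0 : core q l ∈ S p k 0 := by
        rw [S, mem_product, mem_M, mem_M]
        exact ⟨⟨_, by rw [pow_zero, one_mul]⟩, ⟨_, by rw [pow_zero, one_mul]⟩⟩
      obtain ⟨i, -, h2, h3⟩ := exists_mem_A (Nat.zero_le k) h0
      exact ⟨i, h2, h3⟩
    choose v hv1 hv2 using h1
    obtain ⟨i, -, hi⟩ := exists_min_image univ v ⟨0, mem_univ _⟩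
    rw [mem_biUnion]
    refine ⟨v i, mem_range.2 (Nat.lt_succ_of_le (hv1 i)), ?_⟩
    rw [mem_biUnion]
    refine ⟨i, mem_univ _, mem_filter.2 ⟨mem_univ _, hv2 i, fun l => ?_⟩⟩
    exact S_anti (hi l (mem_univ _)) (A_subset_S _ (hv2 l))
  have hX : ∀ j ∈ range (k + 1), ∀ i, (X j i).card ≤ p ^ (2 * (k - j)) * (p ^ (k + j) *
      ((k + 1) * p ^ (2 * k + min (k - j) j)) ^ 3) := by
    intro j hj i
    have hj : j ≤ k := Nat.lt_succ_iff.1 (mem_range.1 hj)
    let T := (A p k j).sigma fun w => (par p k w) ×ˢ (Fintype.piFinset fun _ : Fin 3 => Q p k j w)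
    have hT : (X j i).card ≤ T.card := by
      refine card_le_card_of_injOn (fun q => ⟨core q i, (leaf q i, fun l =>
        ⟨core q (i.succAbove l), leaf q (i.succAbove l)⟩)⟩) ?_ ?_
      · intro q hq
        rw [mem_coe, mem_filter] at hq
        rw [mem_coe, mem_sigma]
        refine ⟨hq.2.1, ?_⟩
        rw [mem_product, Fintype.mem_piFinset]
        refine ⟨mem_filter.2 ⟨mem_univ _, D_leaf q i⟩, fun l => ?_⟩
        simp only [Q]
        rw [mem_sigma, mem_filter]
        exact ⟨⟨hq.2.2 _, D_core q (Fin.succAbove_ne i l).symm⟩,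
          mem_filter.2 ⟨mem_univ _, D_leaf q _⟩⟩
      · intro q _ q' _ hqq
        simp only [Sigma.mk.injEq, heq_eq_eq, Prod.mk.injEq] at hqq
        obtain ⟨h1, h2, h3⟩ := hqq
        have h4 : ∀ l : Fin 3, core q (i.succAbove l) = core q' (i.succAbove l) ∧
            leaf q (i.succAbove l) = leaf q' (i.succAbove l) := by
          intro l
          have := congrFun h3 l
          simpa using this
        refine Par_ext (fun l => ?_) (fun l => ?_)
        · rcases Fin.eq_self_or_eq_succAbove i l with rfl | ⟨m, rfl⟩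
          · exact h1
          · exact (h4 m).1
        · rcases Fin.eq_self_or_eq_succAbove i l with rfl | ⟨m, rfl⟩
          · exact h2
          · exact (h4 m).2
    refine hT.trans ?_
    rw [card_sigma]
    calc ∑ w ∈ A p k j, (par p k w ×ˢ (Fintype.piFinset fun _ : Fin 3 => Q p k j w)).card
        ≤ ∑ w ∈ A p k j, (p ^ (k + j) * ((k + 1) * p ^ (2 * k + min (k - j) j)) ^ 3) := by
          refine sum_le_sum fun w hw => ?_
          rw [card_product, Fintype.card_piFinset, prod_const, card_univ, Fintype.card_fin]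
          exact Nat.mul_le_mul (card_par_le hj hw) (Nat.pow_le_pow_left (card_Q_le hj hw) 3)
      _ = (A p k j).card * (p ^ (k + j) * ((k + 1) * p ^ (2 * k + min (k - j) j)) ^ 3) := by
          rw [sum_const, smul_eq_mul]
      _ ≤ _ := by
          refine Nat.mul_le_mul_right _ ((card_le_card (A_subset_S j)).trans (le_of_eq ?_))
          rw [S, card_product, card_M hj]
          ring
  calc (univ : Finset (Par Γ₀ (ZMod (p ^ k)))).card
      ≤ ((range (k + 1)).biUnion fun j => univ.biUnion fun i => X j i).card := card_le_card hcov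
    _ ≤ ∑ j ∈ range (k + 1), (univ.biUnion fun i => X j i).card := card_biUnion_le
    _ ≤ ∑ j ∈ range (k + 1), ∑ i : Fin 4, (X j i).card :=
        sum_le_sum fun j _ => card_biUnion_le
    _ ≤ ∑ j ∈ range (k + 1), ∑ i : Fin 4, (p ^ (2 * (k - j)) * (p ^ (k + j) *
      ((k + 1) * p ^ (2 * k + min (k - j) j)) ^ 3)) :=
        sum_le_sum fun j hj => sum_le_sum fun i _ => hX j hj i
    _ = _ := by
        refine sum_congr rfl fun j _ => ?_
        rw [sum_const, card_univ, Fintype.card_fin, smul_eq_mul]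

theorem card_par_ge {w : ZMod (p ^ 2) × ZMod (p ^ 2)} (hw : w ∈ S p 2 1) :
    p ^ 3 ≤ (par p 2 w).card := by
  classical
  rw [S, mem_product, mem_M, mem_M] at hw
  obtain ⟨⟨a, ha⟩, ⟨b, hb⟩⟩ := hw
  let F : ZMod (p ^ 2) × ZMod (p ^ 2) →+ ZMod (p ^ 2) :=
    { toFun := fun u => D w u
      map_zero' := by simp [D]
      map_add' := fun u v => by simp [D]; ring }
  have h1 := F.ker.card_mul_index
  rw [AddSubgroup.index_ker, Nat.card_prod, Nat.card_zmod] at h1
  have h2 : Nat.card F.range ≤ p := by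
    have h3 : (F.range : Set (ZMod (p ^ 2))) ⊆ M p 2 1 := by
      rintro _ ⟨u, rfl⟩
      rw [mem_coe, mem_M]
      refine ⟨a * u.2 - b * u.1, ?_⟩
      show D w u = _
      rw [D, ha, hb]
      ring
    have h4 : Nat.card F.range ≤ (M p 2 1).card := by
      have := Nat.card_mono (finite_toSet _) h3
      rwa [SetLike.coe_sort_coe, Nat.card_coe_set_eq, Set.ncard_coe_finset] at this
    rw [card_M (by norm_num)] at h4
    simpa using h4
  have h5 : Nat.card F.ker = (par p 2 w).card := by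
    have : (F.ker : Set (ZMod (p ^ 2) × ZMod (p ^ 2))) = par p 2 w := by
      ext u
      rw [mem_coe, par, mem_filter]
      simp only [mem_univ, true_and]
      rfl
    rw [← Set.ncard_coe_finset, ← this]
    rfl
  rw [h5] at h1
  have hp0 := hp.out.pos
  have h6 : p ^ 3 * p ≤ (par p 2 w).card * p := by
    calc p ^ 3 * p = p ^ 2 * p ^ 2 := by ring
      _ = (par p 2 w).card * Nat.card F.range := h1.symm
      _ ≤ _ := Nat.mul_le_mul_left _ h2
  exact Nat.le_of_mul_le_mul_right h6 hp0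

theorem adj_cases : ∀ l l' : Fin 4, Γ₀.Adj (Fin.castAdd 4 l) (Fin.natAdd 4 l') → l = l' := by
  decide

theorem adj_cases' : ∀ l l' : Fin 4, ¬ (Fin.natAdd 4 l < Fin.castAdd 4 l') := by
  decide

theorem adj_cases'' : ∀ l l' : Fin 4, ¬ Γ₀.Adj (Fin.natAdd 4 l) (Fin.natAdd 4 l') := by
  decide

/-- The combination of vectors at the vertices of the complete graph and vectors at the leaves. -/
def comb {R : Type*} (w u : Fin 4 → R × R) : (Fin 8 → R) × (Fin 8 → R) :=
  (Fin.addCases (m := 4) (n := 4) (motive := fun _ => R) (fun l => (w l).1) (fun l => (u l).1),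
    Fin.addCases (m := 4) (n := 4) (motive := fun _ => R) (fun l => (w l).2) (fun l => (u l).2))

theorem comb_mem {R : Type*} [CommRing R] (w u : Fin 4 → R × R) (hw : ∀ l l', D (w l) (w l') = 0)
    (hu : ∀ l, D (w l) (u l) = 0) (e : Edge Γ₀) :
    (comb w u).1 e.1.1 * (comb w u).2 e.1.2 = (comb w u).2 e.1.1 * (comb w u).1 e.1.2 := by
  obtain ⟨⟨a, b⟩, h1, h2⟩ := e
  simp only at h1 h2 ⊢
  revert h1 h2
  refine Fin.addCases (m := 4) (n := 4) (motive := fun a => a < b → Γ₀.Adj a b →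
    (comb w u).1 a * (comb w u).2 b = (comb w u).2 a * (comb w u).1 b) ?_ ?_ a
  · intro l
    refine Fin.addCases (m := 4) (n := 4) (motive := fun b => Fin.castAdd 4 l < b →
      Γ₀.Adj (Fin.castAdd 4 l) b → (comb w u).1 (Fin.castAdd 4 l) * (comb w u).2 b =
      (comb w u).2 (Fin.castAdd 4 l) * (comb w u).1 b) ?_ ?_ b
    · intro l' _ _
      simp only [comb, Fin.addCases_left]
      have := hw l l'
      rw [D] at this
      linear_combination this
    · intro l' _ h
      obtain rfl := adj_cases l l' h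
      simp only [comb, Fin.addCases_left, Fin.addCases_right]
      have := hu l
      rw [D] at this
      linear_combination this
  · intro l
    refine Fin.addCases (m := 4) (n := 4) (motive := fun b => Fin.natAdd 4 l < b →
      Γ₀.Adj (Fin.natAdd 4 l) b → (comb w u).1 (Fin.natAdd 4 l) * (comb w u).2 b =
      (comb w u).2 (Fin.natAdd 4 l) * (comb w u).1 b) ?_ ?_ b
    · intro l' h _
      exact absurd h (adj_cases' l l')
    · intro l' _ h
      exact absurd h (adj_cases'' l l')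

theorem le_card_Par : p ^ 20 ≤ Nat.card (Par Γ₀ (ZMod (p ^ 2))) := by
  classical
  let _ : Fintype (Par Γ₀ (ZMod (p ^ 2))) := Fintype.ofFinite _
  rw [Nat.card_eq_fintype_card, ← card_univ]
  let T := (Fintype.piFinset fun _ : Fin 4 => S p 2 1).sigma fun w =>
    Fintype.piFinset fun l => par p 2 (w l)
  have hT : p ^ 20 ≤ T.card := by
    rw [card_sigma]
    calc p ^ 20 = ∑ w ∈ Fintype.piFinset fun _ : Fin 4 => S p 2 1, ∏ _l : Fin 4, p ^ 3 := by
          rw [sum_const, Fintype.card_piFinset, prod_const, prod_const, card_univ,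
            Fintype.card_fin, S, card_product, card_M (by norm_num), smul_eq_mul]
          ring
      _ ≤ _ := by
          refine sum_le_sum fun w hw => ?_
          rw [Fintype.card_piFinset]
          exact prod_le_prod' fun l _ => card_par_ge (Fintype.mem_piFinset.1 hw l)
  refine hT.trans ?_
  have hS : ∀ w ∈ T, ∀ l l', D (w.1 l) (w.1 l') = 0 := by
    intro w hw l l'
    have h1 := Fintype.mem_piFinset.1 (mem_sigma.1 hw).1 l
    have h2 := Fintype.mem_piFinset.1 (mem_sigma.1 hw).1 l'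
    rw [S, mem_product, mem_M, mem_M] at h1 h2
    obtain ⟨⟨a, ha⟩, ⟨b, hb⟩⟩ := h1
    obtain ⟨⟨a', ha'⟩, ⟨b', hb'⟩⟩ := h2
    have h0 : (p : ZMod (p ^ 2)) ^ 2 = 0 := by
      rw [← Nat.cast_pow]; exact ZMod.natCast_self _
    rw [D, ha, hb, ha', hb']
    linear_combination (a * b' - b * a') * h0
  have hu : ∀ w ∈ T, ∀ l, D (w.1 l) (w.2 l) = 0 := by
    intro w hw l
    have h1 := Fintype.mem_piFinset.1 (mem_sigma.1 hw).2 l
    exact (mem_filter.1 h1).2
  have : T.card ≤ (univ : Finset (Par Γ₀ (ZMod (p ^ 2)))).card := by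
    rw [← card_attach]
    refine card_le_card_of_injOn (fun w => (⟨comb w.1.1 w.1.2, fun e => comb_mem _ _ (hS w.1 w.2)
      (hu w.1 w.2) e⟩ : Par Γ₀ (ZMod (p ^ 2)))) (fun _ _ => mem_coe.2 (mem_univ _)) ?_
    rintro ⟨⟨w, u⟩, hw⟩ _ ⟨⟨w', u'⟩, hw'⟩ _ h
    simp only [Subtype.mk.injEq] at h
    have h1 : ∀ v, (comb w u).1 v = (comb w' u').1 v := fun v => congrFun (congrArg Prod.fst h) v
    have h2 : ∀ v, (comb w u).2 v = (comb w' u').2 v := fun v => congrFun (congrArg Prod.snd h) v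
    have hw1 : w = w' := by
      funext l
      have a1 := h1 (Fin.castAdd 4 l)
      have a2 := h2 (Fin.castAdd 4 l)
      simp only [comb, Fin.addCases_left] at a1 a2
      exact Prod.ext a1 a2
    have hu1 : u = u' := by
      funext l
      have a1 := h1 (Fin.natAdd 4 l)
      have a2 := h2 (Fin.natAdd 4 l)
      simp only [comb, Fin.addCases_right] at a1 a2
      exact Prod.ext a1 a2
    subst hw1
    subst hu1
    rfl
  exact this

end local_counting

section crt

variable {V : Type*} [LinearOrder V] {Γ : SimpleGraph V}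

theorem card_Par_congr {R R' : Type*} [CommRing R] [CommRing R'] (e : R ≃+* R') :
    Nat.card (Par Γ R) = Nat.card (Par Γ R') := by
  refine Nat.card_congr (Equiv.subtypeEquiv
    (Equiv.prodCongr (Equiv.arrowCongr (Equiv.refl V) e.toEquiv)
      (Equiv.arrowCongr (Equiv.refl V) e.toEquiv)) fun q => ?_)
  refine forall_congr' fun a => ?_
  simp only [Equiv.prodCongr_apply, Prod.map, Equiv.arrowCongr_apply, Equiv.refl_symm,
    Function.comp_apply, Equiv.coe_refl, id]
  rw [← e.injective.eq_iff, map_mul, map_mul]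
  rfl

theorem card_Par_prod {R R' : Type*} [CommRing R] [CommRing R'] :
    Nat.card (Par Γ (R × R')) = Nat.card (Par Γ R) * Nat.card (Par Γ R') := by
  rw [← Nat.card_prod]
  refine Nat.card_congr
    { toFun := fun q => (⟨(fun v => (q.1.1 v).1, fun v => (q.1.2 v).1), fun e => ?_⟩,
        ⟨(fun v => (q.1.1 v).2, fun v => (q.1.2 v).2), fun e => ?_⟩)
      invFun := fun q => ⟨(fun v => (q.1.1.1 v, q.2.1.1 v), fun v => (q.1.1.2 v, q.2.1.2 v)),
        fun e => Prod.ext (q.1.2 e) (q.2.2 e)⟩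
      left_inv := fun _ => rfl
      right_inv := fun _ => rfl }
  · exact congrArg Prod.fst (q.2 e)
  · exact congrArg Prod.snd (q.2 e)

theorem card_Par_mul {m n : ℕ} (h : Nat.Coprime m n) :
    Nat.card (Par Γ (ZMod (m * n))) = Nat.card (Par Γ (ZMod m)) * Nat.card (Par Γ (ZMod n)) := by
  rw [card_Par_congr (ZMod.chineseRemainder h), card_Par_prod]

end crt

section analytic

open Finset

theorem summable_of_local {f : ℕ → ℝ} (hf0 : f 0 = 0) (hf1 : f 1 = 1)
    (hmul : ∀ {m n}, Nat.Coprime m n → f (m * n) = f m * f n) (hf : ∀ n, 0 ≤ f n)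
    {b c : ℕ → ℝ} (hb : Summable b) (hb0 : ∀ n, 0 ≤ b n) (hc : Summable c) (hc0 : ∀ n, 0 ≤ c n)
    (h : ∀ p k, p.Prime → f (p ^ (k + 1)) ≤ b p * c k) : Summable f := by
  have hs : ∀ {p : ℕ}, p.Prime → Summable (fun n : ℕ ↦ f (p ^ n)) := by
    intro p hp
    rw [← summable_nat_add_iff 1]
    exact Summable.of_nonneg_of_le (fun n => hf _) (fun n => h p n hp) (hc.mul_left (b p))
  have hs' : ∀ {p : ℕ}, p.Prime → Summable (fun n : ℕ ↦ ‖f (p ^ n)‖) := by
    intro p hp
    simpa only [Real.norm_of_nonneg (hf _)] using hs hp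
  have hloc : ∀ p : ℕ, p.Prime → ∑' n, f (p ^ n) ≤ 1 + b p * ∑' k, c k := by
    intro p hp
    rw [(hs hp).tsum_eq_zero_add, pow_zero, hf1, ← tsum_mul_left]
    refine add_le_add le_rfl (Summable.tsum_le_tsum (fun k => h p k hp) ?_ (hc.mul_left _))
    exact (summable_nat_add_iff 1).2 (hs hp)
  refine summable_of_sum_le hf (c := Real.exp ((∑' n, b n) * ∑' k, c k)) fun u => ?_
  obtain ⟨N, hN⟩ := u.exists_nat_subset_range
  obtain ⟨h1, h2⟩ := EulerProduct.summable_and_hasSum_smoothNumbers_prod_primesBelow_tsum hf1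
    (fun {m n} => hmul) hs' N
  have h3 : ∏ p ∈ N.primesBelow, ∑' n, f (p ^ n) ≤ Real.exp ((∑' n, b n) * ∑' k, c k) := by
    calc ∏ p ∈ N.primesBelow, ∑' n, f (p ^ n)
        ≤ ∏ p ∈ N.primesBelow, Real.exp (b p * ∑' k, c k) := by
          refine prod_le_prod (fun p _ => tsum_nonneg fun n => hf _) fun p hp => ?_
          refine (hloc p (Nat.prime_of_mem_primesBelow hp)).trans ?_
          rw [add_comm]
          exact Real.add_one_le_exp _
      _ = Real.exp ((∑ p ∈ N.primesBelow, b p) * ∑' k, c k) := by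
          rw [← Real.exp_sum, sum_mul]
      _ ≤ _ := by
          refine Real.exp_le_exp.2 (mul_le_mul_of_nonneg_right ?_ (tsum_nonneg hc0))
          exact hb.sum_le_tsum _ fun n _ => hb0 n
  refine le_trans ?_ h3
  rw [← h2.tsum_eq]
  have h4 : ∑ x ∈ u, f x = ∑ x ∈ u.filter (· ≠ 0), f x := by
    rw [sum_filter_of_ne]
    rintro x _ hx rfl
    exact hx hf0
  rw [h4]
  have h5 : ∀ x ∈ u.filter (· ≠ 0), x ∈ N.smoothNumbers := by
    intro x hx
    rw [mem_filter] at hx
    have hxN : x < N := mem_range.1 (hN hx.1)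
    exact Nat.mem_smoothNumbers_of_lt (Nat.pos_of_ne_zero hx.2) hxN
  let g : {x // x ∈ u.filter (· ≠ 0)} ↪ N.smoothNumbers :=
    ⟨fun x => ⟨x.1, h5 x.1 x.2⟩,
      fun x y hxy => Subtype.ext (congrArg (fun z : N.smoothNumbers => (z : ℕ)) hxy)⟩
  have h6 : ∑ x ∈ u.filter (· ≠ 0), f x = ∑ x ∈ (u.filter (· ≠ 0)).attach.map g, f x := by
    rw [sum_map, ← sum_attach]
    rfl
  rw [h6]
  exact h2.summable.sum_le_tsum _ fun n _ => hf _

/-- The coefficient, with the factor `n ^ (-σ)`. -/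
noncomputable def F (σ : ℝ) (n : ℕ) : ℝ :=
  if n = 0 then 0 else (Nat.card (Par Γ₀ (ZMod n)) : ℝ) * (n : ℝ) ^ (2 - σ)

theorem F_nonneg (σ : ℝ) (n : ℕ) : 0 ≤ F σ n := by
  rw [F]
  split_ifs
  · exact le_rfl
  · positivity

theorem F_pow_le {δ : ℝ} (hδ : 0 < δ) (hδ' : δ ≤ 1 / 2) {p : ℕ} (hp : p.Prime) {k : ℕ}
    (hk : 1 ≤ k) : F (25 / 2 + δ) (p ^ k) ≤
      (p : ℝ) ^ (-(1 + 2 * δ)) * (4 * (k + 1) ^ 4 * (2 : ℝ) ^ (-((k : ℝ) - 2) / 2)) := by
  have : Fact p.Prime := ⟨hp⟩
  have hp0 : (0 : ℝ) < p := by exact_mod_cast hp.pos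
  have hp1 : (1 : ℝ) ≤ p := by exact_mod_cast hp.one_lt.le
  have hp2 : (2 : ℝ) ≤ p := by exact_mod_cast hp.two_le
  have h1 : (Nat.card (Par Γ₀ (ZMod (p ^ k))) : ℝ) ≤
      ∑ j ∈ range (k + 1), 4 * ((p : ℝ) ^ (2 * (k - j)) * ((p : ℝ) ^ (k + j) *
      ((k + 1) * (p : ℝ) ^ (2 * k + min (k - j) j)) ^ 3)) := by
    exact_mod_cast card_Par_le (p := p) (k := k)
  rw [F, if_neg (pow_pos hp.pos k).ne']
  have hexp : ((p ^ k : ℕ) : ℝ) ^ (2 - (25 / 2 + δ)) = (p : ℝ) ^ ((k : ℝ) * (2 - (25 / 2 + δ))) := by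
    rw [Real.rpow_mul hp0.le, Real.rpow_natCast]
    push_cast
    rfl
  rw [hexp]
  have h2 : ∀ j ∈ range (k + 1), 4 * ((p : ℝ) ^ (2 * (k - j)) * ((p : ℝ) ^ (k + j) *
      ((k + 1) * (p : ℝ) ^ (2 * k + min (k - j) j)) ^ 3)) * (p : ℝ) ^ ((k : ℝ) * (2 - (25 / 2 + δ)))
      ≤ (p : ℝ) ^ (-(1 + 2 * δ)) * (4 * (k + 1) ^ 3 * (2 : ℝ) ^ (-((k : ℝ) - 2) / 2)) := by
    intro j hj
    have hj : j ≤ k := Nat.lt_succ_iff.1 (mem_range.1 hj)
    have h3 : 4 * ((p : ℝ) ^ (2 * (k - j)) * ((p : ℝ) ^ (k + j) *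
      ((k + 1) * (p : ℝ) ^ (2 * k + min (k - j) j)) ^ 3)) =
      4 * ((k : ℝ) + 1) ^ 3 * (p : ℝ) ^ (((9 * k - j + 3 * min (k - j) j : ℕ) : ℝ)) := by
      rw [Real.rpow_natCast]
      have : 9 * k - j + 3 * min (k - j) j = 2 * (k - j) + (k + j) + (2 * k + min (k - j) j) * 3 := by
        omega
      rw [this]
      ring
    rw [h3, mul_assoc, ← Real.rpow_add hp0]
    have h4 : (p : ℝ) ^ (((9 * k - j + 3 * min (k - j) j : ℕ) : ℝ) +
        (k : ℝ) * (2 - (25 / 2 + δ))) ≤ (p : ℝ) ^ (-(1 + 2 * δ)) * (2 : ℝ) ^ (-((k : ℝ) - 2) / 2) := by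
      rcases hk.eq_or_lt with rfl | hk2
      · have h5 : ((9 * 1 - j + 3 * min (1 - j) j : ℕ) : ℝ) ≤ 9 := by
          have : 9 * 1 - j + 3 * min (1 - j) j ≤ 9 := by omega
          exact_mod_cast this
        calc (p : ℝ) ^ (((9 * 1 - j + 3 * min (1 - j) j : ℕ) : ℝ) +
            ((1 : ℕ) : ℝ) * (2 - (25 / 2 + δ))) ≤ (p : ℝ) ^ (-(1 + 2 * δ)) := by
              refine Real.rpow_le_rpow_of_exponent_le hp1 ?_
              push_cast at h5 ⊢
              linarith
          _ ≤ (p : ℝ) ^ (-(1 + 2 * δ)) * (2 : ℝ) ^ (-(((1 : ℕ) : ℝ) - 2) / 2) := by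
              refine le_mul_of_one_le_right (by positivity) ?_
              refine Real.one_le_rpow (by norm_num) ?_
              norm_num
      · have hk2' : (2 : ℝ) ≤ k := by exact_mod_cast hk2
        have h5 : ((9 * k - j + 3 * min (k - j) j : ℕ) : ℝ) ≤ 10 * k := by
          have : 9 * k - j + 3 * min (k - j) j ≤ 10 * k := by omega
          exact_mod_cast this
        calc (p : ℝ) ^ (((9 * k - j + 3 * min (k - j) j : ℕ) : ℝ) +
            (k : ℝ) * (2 - (25 / 2 + δ))) ≤ (p : ℝ) ^ (-(1 + 2 * δ) + -((k : ℝ) - 2) / 2) := by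
              refine Real.rpow_le_rpow_of_exponent_le hp1 ?_
              nlinarith
          _ = (p : ℝ) ^ (-(1 + 2 * δ)) * (p : ℝ) ^ (-((k : ℝ) - 2) / 2) := Real.rpow_add hp0 _ _
          _ ≤ _ := by
              refine mul_le_mul_of_nonneg_left ?_ (by positivity)
              exact Real.rpow_le_rpow_of_nonpos (by norm_num) hp2 (by linarith)
    calc 4 * ((k : ℝ) + 1) ^ 3 * (p : ℝ) ^ (((9 * k - j + 3 * min (k - j) j : ℕ) : ℝ) +
        (k : ℝ) * (2 - (25 / 2 + δ)))
        ≤ 4 * ((k : ℝ) + 1) ^ 3 * ((p : ℝ) ^ (-(1 + 2 * δ)) * (2 : ℝ) ^ (-((k : ℝ) - 2) / 2)) :=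
          mul_le_mul_of_nonneg_left h4 (by positivity)
      _ = _ := by ring
  calc (Nat.card (Par Γ₀ (ZMod (p ^ k))) : ℝ) * (p : ℝ) ^ ((k : ℝ) * (2 - (25 / 2 + δ)))
      ≤ (∑ j ∈ range (k + 1), 4 * ((p : ℝ) ^ (2 * (k - j)) * ((p : ℝ) ^ (k + j) *
      ((k + 1) * (p : ℝ) ^ (2 * k + min (k - j) j)) ^ 3))) *
        (p : ℝ) ^ ((k : ℝ) * (2 - (25 / 2 + δ))) :=
        mul_le_mul_of_nonneg_right h1 (by positivity)
    _ ≤ ∑ j ∈ range (k + 1), (p : ℝ) ^ (-(1 + 2 * δ)) *
        (4 * (k + 1) ^ 3 * (2 : ℝ) ^ (-((k : ℝ) - 2) / 2)) := by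
        rw [sum_mul]
        exact sum_le_sum h2
    _ = _ := by
        rw [sum_const, card_range, nsmul_eq_mul]
        push_cast
        ring

theorem summable_F_aux {δ : ℝ} (hδ : 0 < δ) (hδ' : δ ≤ 1 / 2) : Summable (F (25 / 2 + δ)) := by
  have hb : Summable fun n : ℕ => (n : ℝ) ^ (-(1 + 2 * δ)) :=
    Real.summable_nat_rpow.2 (by linarith)
  have hc : Summable fun k : ℕ => 4 * (((k + 1 : ℕ) : ℝ) + 1) ^ 4 *
      (2 : ℝ) ^ (-(((k + 1 : ℕ) : ℝ) - 2) / 2) := by
    have h1 : Summable fun n : ℕ => ((n : ℝ) ^ 4 * ((2 : ℝ) ^ (-(1 / 2) : ℝ)) ^ n) := by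
      refine summable_pow_mul_geometric_of_norm_lt_one 4 ?_
      rw [Real.norm_of_nonneg (by positivity)]
      exact Real.rpow_lt_one_of_one_lt_of_neg (by norm_num) (by norm_num)
    have h2 := ((summable_nat_add_iff 2).2 h1).mul_left (4 * (2 : ℝ) ^ ((3 : ℝ) / 2))
    refine h2.congr fun k => ?_
    have h3 : ((2 : ℝ) ^ (-(1 / 2) : ℝ)) ^ (k + 2) = (2 : ℝ) ^ (-(1 / 2) * ((k + 2 : ℕ) : ℝ)) := by
      rw [Real.rpow_mul (by norm_num), Real.rpow_natCast]
    rw [h3]
    have h4 : (2 : ℝ) ^ (-(((k + 1 : ℕ) : ℝ) - 2) / 2) =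
        (2 : ℝ) ^ ((3 : ℝ) / 2) * (2 : ℝ) ^ (-(1 / 2) * ((k + 2 : ℕ) : ℝ)) := by
      rw [← Real.rpow_add (by norm_num)]
      congr 1
      push_cast
      ring
    rw [h4]
    push_cast
    ring
  refine summable_of_local ?_ ?_ ?_ (F_nonneg _) hb (fun n => by positivity) hc
    (fun n => by positivity) ?_
  · rw [F, if_pos rfl]
  · rw [F, if_neg one_ne_zero]
    have : Subsingleton (ZMod 1) := inferInstance
    have : Unique (Par Γ₀ (ZMod 1)) :=
      { default := ⟨(0, 0), fun _ => Subsingleton.elim _ _⟩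
        uniq := fun a => Subtype.ext (Subsingleton.elim _ _) }
    rw [Nat.card_unique]
    simp
  · intro m n hmn
    rcases eq_or_ne m 0 with rfl | hm
    · rw [zero_mul, F, if_pos rfl, zero_mul]
    rcases eq_or_ne n 0 with rfl | hn
    · rw [mul_zero, F, if_pos rfl, mul_zero]
    rw [F, F, F, if_neg hm, if_neg hn, if_neg (mul_ne_zero hm hn), card_Par_mul hmn]
    push_cast
    rw [Real.mul_rpow (by positivity) (by positivity)]
    ring
  · intro p k hp
    have := F_pow_le hδ hδ' hp (Nat.le_add_left 1 k)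
    exact_mod_cast this

theorem summable_F {σ : ℝ} (hσ : 25 / 2 < σ) : Summable (F σ) := by
  have h1 : 0 < min (σ - 25 / 2) (1 / 2) := lt_min (by linarith) (by norm_num)
  refine Summable.of_nonneg_of_le (F_nonneg σ) (fun n => ?_)
    (summable_F_aux h1 (min_le_right _ _))
  rw [F, F]
  split_ifs with hn
  · exact le_rfl
  · refine mul_le_mul_of_nonneg_left ?_ (by positivity)
    refine Real.rpow_le_rpow_of_exponent_le ?_ ?_
    · exact_mod_cast Nat.one_le_iff_ne_zero.2 hn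
    · have := min_le_left (σ - 25 / 2) (1 / 2)
      linarith

theorem not_summable_F {σ : ℝ} (hσ : σ ≤ 25 / 2) :
    ¬ Summable fun p : Nat.Primes => F σ ((p : ℕ) ^ 2) := by
  intro h
  refine Nat.Primes.not_summable_one_div (Summable.of_nonneg_of_le (fun p => by positivity)
    (fun p => ?_) h)
  have hp := p.2
  have : Fact (p : ℕ).Prime := ⟨hp⟩
  have hp0 : (0 : ℝ) < (p : ℕ) := by exact_mod_cast hp.pos
  have hp1 : (1 : ℝ) ≤ (p : ℕ) := by exact_mod_cast hp.one_lt.le
  rw [F, if_neg (pow_pos hp.pos 2).ne']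
  have h1 : ((p : ℕ) : ℝ) ^ 20 ≤ (Nat.card (Par Γ₀ (ZMod ((p : ℕ) ^ 2))) : ℝ) := by
    exact_mod_cast le_card_Par (p := p)
  have hexp : (((p : ℕ) ^ 2 : ℕ) : ℝ) ^ (2 - σ) = ((p : ℕ) : ℝ) ^ (2 * (2 - σ)) := by
    rw [Real.rpow_mul hp0.le]
    push_cast
    norm_num
  rw [hexp]
  calc 1 / ((p : ℕ) : ℝ) = ((p : ℕ) : ℝ) ^ (-1 : ℝ) := by
        rw [Real.rpow_neg_one, one_div]
    _ ≤ ((p : ℕ) : ℝ) ^ (((20 : ℕ) : ℝ) + 2 * (2 - σ)) := by
        refine Real.rpow_le_rpow_of_exponent_le hp1 ?_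
        push_cast
        linarith
    _ = ((p : ℕ) : ℝ) ^ 20 * ((p : ℕ) : ℝ) ^ (2 * (2 - σ)) := by
        rw [Real.rpow_add hp0, Real.rpow_natCast]
    _ ≤ _ := mul_le_mul_of_nonneg_right h1 (by positivity)

end analytic

section rat

open NumberField

theorem exists_eq_span {I : Ideal (𝓞 ℚ)} (hI : I ≠ ⊥) :
    ∃ n : ℕ, 0 < n ∧ I = Ideal.span {(n : 𝓞 ℚ)} := by
  let e : 𝓞 ℚ ≃+* ℤ := Rat.ringOfIntegersEquiv
  obtain ⟨a, ha⟩ := IsPrincipalIdealRing.principal (I.map (e : 𝓞 ℚ →+* ℤ))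
  have h1 : I = Ideal.span {(a.natAbs : 𝓞 ℚ)} := by
    have h2 : (I.map (e : 𝓞 ℚ →+* ℤ)).map (e.symm : ℤ →+* 𝓞 ℚ) = I := by
      rw [Ideal.map_map]
      convert Ideal.map_id I
      ext x
      simp
    rw [← h2, ha]
    change Ideal.map (e.symm : ℤ →+* 𝓞 ℚ) (Ideal.span {a}) = _
    rw [Ideal.map_span, Set.image_singleton]
    have h3 : (e.symm : ℤ →+* 𝓞 ℚ) a = (a : 𝓞 ℚ) := by simp
    rw [h3]
    rcases Int.natAbs_eq a with h | h
    · conv_lhs => rw [h]
      simp
    · conv_lhs => rw [h]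
      rw [Int.cast_neg, Ideal.span_singleton_neg]
      simp
  refine ⟨a.natAbs, Nat.pos_of_ne_zero fun h0 => hI ?_, h1⟩
  rw [h1, h0]
  simp

theorem quot_equiv (n : ℕ) : Nonempty (𝓞 ℚ ⧸ Ideal.span {(n : 𝓞 ℚ)} ≃+* ZMod n) := by
  let e : ℤ ≃+* 𝓞 ℚ := Rat.ringOfIntegersEquiv.symm
  refine ⟨(Ideal.quotientEquiv (Ideal.span {(n : ℤ)}) (Ideal.span {(n : 𝓞 ℚ)}) e ?_).symm.trans
    (Int.quotientSpanNatEquivZMod n)⟩
  rw [Ideal.map_span, Set.image_singleton]
  simp

theorem card_quot (n : ℕ) : Nat.card (𝓞 ℚ ⧸ Ideal.span {(n : 𝓞 ℚ)}) = n := by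
  rw [Nat.card_congr (quot_equiv n).some.toEquiv, Nat.card_zmod]

/-- The terms of the class counting zeta function of the graph `Γ` over the number field `K`:
the number of conjugacy classes of `G_Γ(𝓞 K / I)` times `|𝓞 K : I| ^ (-s)`, for the nonzero
ideals `I` of `𝓞 K`. -/
noncomputable def zetaTerm {V : Type*} [LinearOrder V] (Γ : SimpleGraph V) (K : Type*) [Field K]
    [NumberField K] (s : ℂ) (I : {I : Ideal (𝓞 K) // I ≠ ⊥}) : ℂ :=
  (Nat.card (ConjClasses (GG Γ (𝓞 K ⧸ I.1))) : ℂ) * (Nat.card (𝓞 K ⧸ I.1) : ℂ) ^ (-s)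

/-- The abscissa of convergence of the class counting zeta function: the infimum of the real `σ`
such that the series converges for `Re s > σ`. -/
noncomputable def abscissa {V : Type*} [LinearOrder V] (Γ : SimpleGraph V) (K : Type*) [Field K]
    [NumberField K] : ℝ :=
  sInf {σ : ℝ | ∀ s : ℂ, σ < s.re → Summable (zetaTerm Γ K s)}

theorem norm_zetaTerm {n : ℕ} (hn : 0 < n) (h : Ideal.span {(n : 𝓞 ℚ)} ≠ ⊥) (s : ℂ) :
    ‖zetaTerm Γ₀ ℚ s ⟨Ideal.span {(n : 𝓞 ℚ)}, h⟩‖ = F s.re n := by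
  have hn' : (0 : ℝ) < n := by exact_mod_cast hn
  have : Finite (𝓞 ℚ ⧸ Ideal.span {(n : 𝓞 ℚ)}) := by
    refine Nat.finite_of_card_ne_zero ?_
    rw [card_quot]
    exact hn.ne'
  rw [zetaTerm, card_conj_mul card_edge, F, if_neg hn.ne', norm_mul]
  simp only [card_quot]
  rw [card_Par_congr (quot_equiv n).some, Complex.norm_natCast_cpow_of_pos hn]
  push_cast
  rw [norm_mul, norm_pow, Complex.norm_natCast, Complex.norm_natCast, sub_eq_add_neg,
    Real.rpow_add hn', Complex.neg_re]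
  norm_num
  ring

theorem summable_iff (s : ℂ) : Summable (zetaTerm Γ₀ ℚ s) ↔ 25 / 2 < s.re := by
  rw [← summable_norm_iff]
  constructor
  · intro h
    by_contra hs
    refine not_summable_F (not_lt.1 hs) ?_
    have hne : ∀ p : Nat.Primes, Ideal.span {(((p : ℕ) ^ 2 : ℕ) : 𝓞 ℚ)} ≠ ⊥ := by
      intro p h0
      have h1 := card_quot ((p : ℕ) ^ 2)
      rw [h0] at h1
      have h2 : Infinite (𝓞 ℚ ⧸ (⊥ : Ideal (𝓞 ℚ))) := by
        have : Infinite (𝓞 ℚ) := inferInstance
        exact (RingEquiv.quotientBot (𝓞 ℚ)).symm.toEquiv.infinite_iff.1 this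
      rw [Nat.card_eq_zero_of_infinite] at h1
      exact (pow_pos p.2.pos 2).ne h1
    have hinj : Function.Injective fun p : Nat.Primes =>
        (⟨Ideal.span {(((p : ℕ) ^ 2 : ℕ) : 𝓞 ℚ)}, hne p⟩ : {I : Ideal (𝓞 ℚ) // I ≠ ⊥}) := by
      intro p q hpq
      have h1 := congrArg (fun I : {I : Ideal (𝓞 ℚ) // I ≠ ⊥} => Nat.card (𝓞 ℚ ⧸ I.1)) hpq
      simp only [card_quot] at h1
      exact Subtype.ext (Nat.pow_left_injective (by norm_num) h1)
    refine (h.comp_injective hinj).congr fun p => ?_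
    rw [Function.comp_apply, norm_zetaTerm (pow_pos p.2.pos 2)]
  · intro hs
    have h1 := summable_F hs
    have hinj : Function.Injective fun I : {I : Ideal (𝓞 ℚ) // I ≠ ⊥} => Nat.card (𝓞 ℚ ⧸ I.1) := by
      rintro ⟨I, hI⟩ ⟨J, hJ⟩ h
      obtain ⟨m, hm, rfl⟩ := exists_eq_span hI
      obtain ⟨n, hn, rfl⟩ := exists_eq_span hJ
      simp only [card_quot] at h
      subst h
      rfl
    refine (h1.comp_injective hinj).congr ?_
    rintro ⟨I, hI⟩
    obtain ⟨m, hm, rfl⟩ := exists_eq_span hI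
    rw [Function.comp_apply, norm_zetaTerm hm, card_quot]

/-- The abscissa of convergence of the class counting zeta function over `ℚ` of the complete
graph on four vertices with a leaf attached to every vertex is `25 / 2`. -/
theorem result : abscissa Γ₀ ℚ = 25 / 2 := by
  have h : {σ : ℝ | ∀ s : ℂ, σ < s.re → Summable (zetaTerm Γ₀ ℚ s)} = Set.Ici (25 / 2) := by
    ext σ
    simp only [summable_iff, Set.mem_ofPred_eq, Set.mem_Ici]
    constructor
    · intro h
      by_contra hσ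
      have := h (((σ + 25 / 2) / 2 : ℝ) : ℂ) (by
        rw [Complex.ofReal_re]
        linarith)
      rw [Complex.ofReal_re] at this
      linarith
    · intro h s hs
      exact lt_of_le_of_lt h hs
  rw [abscissa, h, csInf_Ici]

end rat

end Pool.Agent.Results.MP_2f42a7_al.NotIntegral
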